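import Pool.Agent.H197BP.Smo2
import Pool.Agent.H410R3.CMBMP
import Pool.Agent.H227CM.PTP

/-! PLY: the comparison theorem for polytopes. -/

set_option autoImplicit false
open MeasureTheory Matrix Filter Topology
open scoped ENNReal BigOperators Pointwise

namespace Pool.Agent.H197BP

open Pool.Agent.H381BP Pool.Agent.H381CM

theorem ply_convex {d : ℕ} {ι : Type} (u : ι → V d) : Convex ℝ (Pol u) := by
  have h : Pol u = ⋂ k, {x : V d | |u k ⬝ᵥ x| ≤ 1} := by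
    ext x
    simp [Pol]
  rw [h]
  refine convex_iInter fun k => ?_
  have h2 : {x : V d | |u k ⬝ᵥ x| ≤ 1} = {x : V d | u k ⬝ᵥ x ≤ 1} ∩ {x : V d | -1 ≤ u k ⬝ᵥ x} := by
    ext x
    simp only [Set.mem_setOf_eq, Set.mem_inter_iff, abs_le]
    tauto
  rw [h2]
  have hl : IsLinearMap ℝ (fun x : V d => u k ⬝ᵥ x) :=
    ⟨fun x y => dotProduct_add _ _ _, fun c x => dotProduct_smul _ _ _⟩
  exact (convex_halfSpace_le hl 1).inter (convex_halfSpace_ge hl (-1))

theorem ply_zero {d : ℕ} {ι : Type} [Fintype ι] (u : ι → V d) : (0 : V d) ∈ interior (Pol u) := by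
  rw [mem_interior]
  refine ⟨⋂ k, {x : V d | |u k ⬝ᵥ x| < 1}, ?_, ?_, ?_⟩
  · intro x hx k
    rw [Set.mem_iInter] at hx
    exact (hx k).le
  · refine isOpen_iInter_of_finite fun k => ?_
    exact isOpen_lt (by fun_prop) continuous_const
  · rw [Set.mem_iInter]
    intro k
    simp

theorem T_PLY : S_SMO2 → S_LIM → S_BTH → S_BTE → S_VBA → S_PLY := by
  intro hSMO hLIM hBTH hBTE hVBA
  intro d m hm1 hm3 hmd ι _ u hu L hLm hLb hL0 s hs hyp
  obtain ⟨hB, hom⟩ := hVBA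
  obtain ⟨hBv, hBm, hBb⟩ := hB d
  obtain ⟨ho0, hot⟩ := hom m
  obtain ⟨hPc, hP0, hPt, _⟩ := Pool.Agent.H381CM.T_PTP d ι u hu
  have hPm : MeasurableSet (Pol u) := hPc.measurableSet
  have hr : s / om m ≠ ⊤ := ENNReal.div_ne_top hs ho0
  have hadm : ∀ j : ℕ, 1 ≤ j → Adm (bump j) := Pool.Agent.H410CM.T_BMP.1
  -- step 1
  have h1 : ∀ j : ℕ, 1 ≤ j →
      (∫⁻ x : V d, ENNReal.ofReal (gg u (fun _ => bump j) x) * hh m (Pol u) x) ≤
        (∫⁻ x : V d, ENNReal.ofReal (gg u (fun _ => bump j) x) * hh m L x) +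
          s / om m * (∫⁻ x : V d, ENNReal.ofReal (gg u (fun _ => bump j) x) * hh m (BV d) x) :=
    fun j hj => hSMO d m hm1 hm3 ι u (fun _ => bump j) hu (fun _ => hadm j hj) (Pol u) L (BV d)
      hPm hLm hBm (s / om m) hr hyp
  -- step 2
  have h2 : (∫⁻ x in Pol u, hh m (Pol u) x) ≤
      (∫⁻ x in Pol u, hh m L x) + s / om m * (∫⁻ x in Pol u, hh m (BV d) x) := by
    refine le_of_tendsto_of_tendsto (hLIM d m hm1 hmd ι u hu (Pol u) hPm hPc.isBounded)
      ((hLIM d m hm1 hmd ι u hu L hLm hLb).add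
        (ENNReal.Tendsto.const_mul (hLIM d m hm1 hmd ι u hu (BV d) hBm hBb) (Or.inr hr))) ?_
    filter_upwards [eventually_ge_atTop 1] with j hj
    exact h1 j hj
  -- step 3
  have hdpos : (0 : ℝ) < d := by
    have : 0 < d := by omega
    exact_mod_cast this
  have hdm : (0 : ℝ) < (d : ℝ) - m := by
    have : (m : ℝ) < d := by exact_mod_cast hmd
    linarith
  have hLt : volume L ≠ ⊤ := hLb.measure_lt_top.ne
  obtain ⟨hd0, hdt⟩ := hom d
  have hBTL := hBTH d m hm1 hmd (Pol u) L hPm hLm hP0.ne' hPt.ne hL0 hLt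
  have hBTB := hBTH d m hm1 hmd (Pol u) (BV d) hPm hBm hP0.ne' hPt.ne (by rw [hBv]; exact hd0)
    (by rw [hBv]; exact hdt)
  rw [hBv] at hBTB
  have hE := hBTE d m hm1 hmd (Pol u) hPm (ply_convex u) (ply_zero u) hPt.ne
  rw [hE] at h2
  set c : ℝ≥0∞ := ENNReal.ofReal ((d : ℝ) / (d - m)) with hc
  have hc0 : c ≠ 0 := by
    rw [hc, Ne, ENNReal.ofReal_eq_zero, not_le]
    exact div_pos hdpos hdm
  have hct : c ≠ ⊤ := ENNReal.ofReal_ne_top
  set A : ℝ≥0∞ := om m * c * volume (Pol u) ^ (1 - (m : ℝ) / d) with hA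
  have hexp : (0 : ℝ) ≤ 1 - (m : ℝ) / d := by
    rw [sub_nonneg, div_le_one hdpos]
    linarith
  have hA0 : A ≠ 0 := by
    refine mul_ne_zero (mul_ne_zero ho0 hc0) ?_
    exact (ENNReal.rpow_pos hP0 hPt.ne).ne'
  have hAt : A ≠ ⊤ :=
    ENNReal.mul_ne_top (ENNReal.mul_ne_top hot hct) (ENNReal.rpow_ne_top_of_nonneg hexp hPt.ne)
  have hsplit : om m * c * volume (Pol u) = A * volume (Pol u) ^ ((m : ℝ) / d) := by
    rw [hA, mul_assoc (om m * c), ← ENNReal.rpow_add _ _ hP0.ne' hPt.ne]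
    rw [sub_add_cancel, ENNReal.rpow_one]
  have h3 : A * volume (Pol u) ^ ((m : ℝ) / d) ≤
      A * (volume L ^ ((m : ℝ) / d) + s * cc d m) := by
    rw [← hsplit]
    refine h2.trans ((add_le_add hBTL (mul_le_mul_right hBTB _)).trans (le_of_eq ?_))
    have haux : ∀ X A s o : ℝ≥0∞, s / o * (A * X) = A * (s * (X / o)) := by
      intro X A s o
      rw [div_eq_mul_inv, div_eq_mul_inv]
      ring
    rw [cc, mul_add, haux]
  exact (ENNReal.mul_le_mul_iff_right hA0 hAt).1 h3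

end Pool.Agent.H197BP
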