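import Pool.Agent.H381R4.BP.Stubs

/-! The statement `S_SMO` with the parentheses of the right-hand side in the intended places (in
`S_SMO` the sum is inside the first integral). -/

set_option autoImplicit false
open MeasureTheory Matrix Filter Topology
open scoped ENNReal BigOperators Pointwise

namespace Pool.Agent.H197BP

open Pool.Agent.H381BP Pool.Agent.H381CM

/-- comparison for the smooth densities (correct parentheses) -/
def S_SMO2 : Prop := ∀ (d m : ℕ), 1 ≤ m → m ≤ 3 → ∀ (ι : Type) [Fintype ι] (u : ι → V d)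
  (p : ι → Polynomial ℝ), Spans u → (∀ k, Adm (p k)) → ∀ K L B : Set (V d), MeasurableSet K →
  MeasurableSet L → MeasurableSet B → ∀ r : ℝ≥0∞, r ≠ ⊤ →
  (∀ x y z : V d, volume {v : E m | lf m x y z v ∈ K} ≤
    volume {v : E m | lf m x y z v ∈ L} + r * volume {v : E m | lf m x y z v ∈ B}) →
  (∫⁻ x : V d, ENNReal.ofReal (gg u p x) * hh m K x) ≤
    (∫⁻ x : V d, ENNReal.ofReal (gg u p x) * hh m L x) +
      r * (∫⁻ x : V d, ENNReal.ofReal (gg u p x) * hh m B x)

end Pool.Agent.H197BP
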